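import Mathlib

/-!
# Newton's identities and log-concavity of the first coefficients
-/

set_option autoImplicit false

namespace Pool.Agent.Helper49.ZB

open Polynomial

/-! ### Newton's identities for a multiset -/

theorem esymm_cons {R : Type*} [CommRing R] (a : R) (s : Multiset R) (n : ℕ) :
    (a ::ₘ s).esymm (n + 1) = s.esymm (n + 1) + a * s.esymm n := by
  unfold Multiset.esymm
  rw [Multiset.powersetCard_cons, Multiset.map_add, Multiset.sum_add, Multiset.map_map]
  congr 1
  rw [← Multiset.sum_map_mul_left]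
  congr 1
  refine Multiset.map_congr rfl fun t _ => ?_
  simp

theorem esymm_zero' {R : Type*} [CommRing R] (s : Multiset R) : s.esymm 0 = 1 := by
  simp [Multiset.esymm]

/-- Newton's identities -/
theorem newton_multiset {R : Type*} [CommRing R] (s : Multiset R) (k : ℕ) :
    ((k : R) + 1) * s.esymm (k + 1) =
      ∑ i ∈ Finset.range (k + 1), (-1) ^ i * (s.map fun r => r ^ (i + 1)).sum * s.esymm (k - i) := by
  induction s using Multiset.induction_on generalizing k with
  | empty =>
    have h : (0 : Multiset R).esymm (k + 1) = 0 := by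
      simp [Multiset.esymm, Multiset.powersetCard_zero_right]
    rw [h]
    simp
  | cons a s ih =>
    have e1 : ∀ n, (a ::ₘ s).esymm n = s.esymm n + if n = 0 then 0 else a * s.esymm (n - 1) := by
      intro n
      cases n with
      | zero => simp [esymm_zero']
      | succ n => rw [esymm_cons]; simp
    have e2 : ∀ i, ((a ::ₘ s).map fun r => r ^ (i + 1)).sum =
        (s.map fun r => r ^ (i + 1)).sum + a ^ (i + 1) := by
      intro i
      rw [Multiset.map_cons, Multiset.sum_cons, add_comm]
    rw [esymm_cons]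
    have key : ∑ i ∈ Finset.range (k + 1), (-1) ^ i *
        ((a ::ₘ s).map fun r => r ^ (i + 1)).sum * (a ::ₘ s).esymm (k - i) =
        ∑ i ∈ Finset.range (k + 1), (-1) ^ i * (s.map fun r => r ^ (i + 1)).sum * s.esymm (k - i) +
        a * ∑ i ∈ Finset.range k, (-1) ^ i * (s.map fun r => r ^ (i + 1)).sum *
          s.esymm (k - 1 - i) + a * s.esymm k := by
      have h1 : ∀ i ∈ Finset.range (k + 1), (-1 : R) ^ i *
          ((a ::ₘ s).map fun r => r ^ (i + 1)).sum * (a ::ₘ s).esymm (k - i) =
          (-1) ^ i * (s.map fun r => r ^ (i + 1)).sum * s.esymm (k - i) +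
          ((-1) ^ i * (s.map fun r => r ^ (i + 1)).sum *
            (if k - i = 0 then 0 else a * s.esymm (k - i - 1)) +
          ((-1) ^ i * a ^ (i + 1) * s.esymm (k - i) +
            (-1) ^ i * a ^ (i + 1) * (if k - i = 0 then 0 else a * s.esymm (k - i - 1)))) := by
        intro i _
        rw [e1, e2]
        ring
      rw [Finset.sum_congr rfl h1, Finset.sum_add_distrib, Finset.sum_add_distrib, add_assoc]
      congr 1
      congr 1
      · rw [Finset.sum_range_succ, Nat.sub_self, if_pos rfl, mul_zero, add_zero, Finset.mul_sum]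
        refine Finset.sum_congr rfl fun i hi => ?_
        rw [Finset.mem_range] at hi
        rw [if_neg (by omega), show k - 1 - i = k - i - 1 by omega]
        ring
      · have tel : ∀ n, n ≤ k → ∑ i ∈ Finset.range n, ((-1 : R) ^ i * a ^ (i + 1) * s.esymm (k - i) +
            (-1) ^ i * a ^ (i + 1) * (if k - i = 0 then 0 else a * s.esymm (k - i - 1))) =
            a * s.esymm k - (-1) ^ n * a ^ (n + 1) * s.esymm (k - n) := by
          intro n
          induction n with
          | zero => intro _; simp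
          | succ n ihn =>
            intro hn
            rw [Finset.sum_range_succ, ihn (by omega), if_neg (by omega),
              show k - n - 1 = k - (n + 1) by omega]
            ring
        rw [Finset.sum_range_succ, tel k le_rfl, Nat.sub_self, if_pos rfl]
        ring
    rw [key, ← ih k]
    rcases Nat.eq_zero_or_pos k with rfl | hk
    · simp only [Finset.range_zero, Finset.sum_empty, mul_zero, add_zero, Nat.cast_zero, zero_add]
      ring
    · obtain ⟨m, rfl⟩ : ∃ m, k = m + 1 := ⟨k - 1, by omega⟩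
      have h2 := ih m
      rw [show m + 1 - 1 = m by omega, ← h2]
      push_cast
      ring

/-- the coefficients of a real polynomial and the power sums of its roots -/
theorem newton_seq (g : ℕ) (e : ℕ → ℝ) (he0 : e 0 = 1) (hg : ∀ k, g < k → e k = 0)
    (hroots : ∀ t : ℂ, (∑ k ∈ Finset.range (g + 1), (e k : ℂ) * t ^ (g - k)) = 0 → ‖t‖ ≤ 8) :
    ∃ p : ℕ → ℝ, (∀ m, |p (m + 1)| ≤ g * 8 ^ (m + 1)) ∧
      ∀ k : ℕ, ((k : ℝ) + 1) * e (k + 1) =
        ∑ i ∈ Finset.range (k + 1), (-1) ^ i * p (i + 1) * e (k - i) := by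
  classical
  set P : ℂ[X] := ∑ k ∈ Finset.range (g + 1), C (e k : ℂ) * X ^ (g - k) with hP
  have hcoeff : ∀ j, j ≤ g → P.coeff j = (e (g - j) : ℂ) := by
    intro j hj
    rw [hP, Polynomial.finsetSum_coeff, Finset.sum_eq_single (g - j)]
    · rw [Polynomial.coeff_C_mul_X_pow, if_pos (by omega)]
    · intro b hb hne
      rw [Finset.mem_range] at hb
      rw [Polynomial.coeff_C_mul_X_pow, if_neg (by omega)]
    · intro h
      exact absurd (Finset.mem_range.2 (by omega)) h
  have hle : P.natDegree ≤ g := by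
    rw [hP]
    refine Polynomial.natDegree_sum_le_of_forall_le _ _ fun k hk => ?_
    exact (Polynomial.natDegree_C_mul_X_pow_le _ _).trans (Nat.sub_le _ _)
  have hlead : P.coeff g = 1 := by
    rw [hcoeff g le_rfl, Nat.sub_self, he0]
    simp
  have hdeg : P.natDegree = g := by
    refine le_antisymm hle (Polynomial.le_natDegree_of_ne_zero ?_)
    rw [hlead]
    exact one_ne_zero
  have hmonic : P.leadingCoeff = 1 := by
    rw [Polynomial.leadingCoeff, hdeg, hlead]
  have hP0 : P ≠ 0 := by
    intro h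
    rw [h, Polynomial.coeff_zero] at hlead
    exact zero_ne_one hlead
  have hcard : Multiset.card P.roots = P.natDegree :=
    IsAlgClosed.card_roots_eq_natDegree
  have hes : ∀ k, (e k : ℂ) = (-1) ^ k * P.roots.esymm k := by
    intro k
    rcases Nat.lt_or_ge g k with h | h
    · rw [hg k h]
      have : P.roots.esymm k = 0 := by
        unfold Multiset.esymm
        rw [Multiset.powersetCard_eq_empty k (by rw [hcard, hdeg]; exact h)]
        simp
      rw [this]
      simp
    · have h1 := Polynomial.coeff_eq_esymm_roots_of_card hcard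
        (show g - k ≤ P.natDegree by rw [hdeg]; omega)
      rw [hcoeff (g - k) (by omega), hmonic, hdeg, show g - (g - k) = k by omega, one_mul] at h1
      exact h1
  refine ⟨fun m => ((P.roots.map fun t => (-t) ^ m).sum).re, ?_, ?_⟩
  · intro m
    have h1 : ∀ s : Multiset ℂ, (∀ t ∈ s, ‖t‖ ≤ 8) →
        ‖(s.map fun t => (-t) ^ (m + 1)).sum‖ ≤ Multiset.card s * 8 ^ (m + 1) := by
      intro s
      induction s using Multiset.induction_on with
      | empty => simp
      | cons a s ih =>
        intro h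
        rw [Multiset.map_cons, Multiset.sum_cons, Multiset.card_cons]
        have h2 := ih fun t ht => h t (Multiset.mem_cons_of_mem ht)
        have h3 : ‖(-a) ^ (m + 1)‖ ≤ 8 ^ (m + 1) := by
          rw [norm_pow, norm_neg]
          exact pow_le_pow_left₀ (norm_nonneg _) (h a (Multiset.mem_cons_self _ _)) _
        refine (norm_add_le _ _).trans ?_
        push_cast
        linarith
    have h2 := h1 P.roots (by
      intro t ht
      apply hroots
      have h3 := (Polynomial.mem_roots hP0).1 ht
      rw [Polynomial.IsRoot, hP, Polynomial.eval_finsetSum] at h3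
      simpa using h3)
    rw [hcard, hdeg] at h2
    exact (Complex.abs_re_le_norm _).trans h2
  · intro k
    have h1 := newton_multiset P.roots k
    have h2 : ((k : ℂ) + 1) * (e (k + 1) : ℂ) = ∑ i ∈ Finset.range (k + 1),
        (-1) ^ i * (P.roots.map fun t => (-t) ^ (i + 1)).sum * (e (k - i) : ℂ) := by
      rw [hes (k + 1)]
      calc ((k : ℂ) + 1) * ((-1) ^ (k + 1) * P.roots.esymm (k + 1))
          = (-1) ^ (k + 1) * (((k : ℂ) + 1) * P.roots.esymm (k + 1)) := by ring
        _ = _ := by
          rw [h1, Finset.mul_sum]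
          refine Finset.sum_congr rfl fun i hi => ?_
          rw [Finset.mem_range] at hi
          rw [hes (k - i)]
          have h3 : (P.roots.map fun t => (-t) ^ (i + 1)).sum =
              (-1) ^ (i + 1) * (P.roots.map fun t => t ^ (i + 1)).sum := by
            rw [← Multiset.sum_map_mul_left]
            congr 1
            refine Multiset.map_congr rfl fun t _ => ?_
            rw [neg_pow]
          rw [h3]
          obtain ⟨j, rfl⟩ : ∃ j, k = i + j := ⟨k - i, by omega⟩
          rw [show i + j - i = j by omega]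
          have h4 : ((-1 : ℂ) ^ i) * (-1) ^ i = 1 := by
            rw [← mul_pow]
            simp
          calc (-1 : ℂ) ^ (i + j + 1) * ((-1) ^ i * (P.roots.map fun t => t ^ (i + 1)).sum *
                P.roots.esymm j) = ((-1 : ℂ) ^ i * (-1) ^ i) * ((-1) ^ (j + 1) *
                (P.roots.map fun t => t ^ (i + 1)).sum * P.roots.esymm j) := by ring
            _ = ((-1 : ℂ) ^ i * (-1) ^ i) * ((-1) * (P.roots.map fun t => t ^ (i + 1)).sum *
                ((-1) ^ j * P.roots.esymm j)) := by ring
            _ = (-1) ^ i * ((-1) ^ (i + 1) * (P.roots.map fun t => t ^ (i + 1)).sum) *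
                ((-1) ^ j * P.roots.esymm j) := by ring
    have h5 := congrArg Complex.re h2
    rw [Complex.re_sum] at h5
    have h6 : (((k : ℂ) + 1) * (e (k + 1) : ℂ)).re = ((k : ℝ) + 1) * e (k + 1) := by
      have : ((k : ℂ) + 1) * (e (k + 1) : ℂ) = (((k : ℝ) + 1) * e (k + 1) : ℝ) := by
        push_cast
        ring
      rw [this, Complex.ofReal_re]
    rw [h6] at h5
    rw [h5]
    refine Finset.sum_congr rfl fun i _ => ?_
    have h7 : ((-1 : ℂ) ^ i) = (((-1 : ℝ) ^ i : ℝ) : ℂ) := by
      push_cast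
      rfl
    rw [h7, Complex.re_mul_ofReal, Complex.re_ofReal_mul]

/-! ### Log-concavity -/

/-- the quotients of consecutive coefficients -/
noncomputable def yq (e : ℕ → ℝ) : ℕ → ℝ
  | 0 => 0
  | j + 1 => e j / e (j + 1)

theorem geo_le {x : ℝ} (h0 : 0 ≤ x) (h1 : x < 1) (n : ℕ) :
    ∑ i ∈ Finset.range n, ((i : ℝ) + 2) * x ^ (i + 1) ≤ 1 / (1 - x) ^ 2 - 1 := by
  have h2 : 0 < 1 - x := by linarith
  have h3 : ∑ i ∈ Finset.range n, ((i : ℝ) + 2) * x ^ (i + 1) = 1 / (1 - x) ^ 2 - 1 -
      (((n : ℝ) + 2) * x ^ (n + 1) - ((n : ℝ) + 1) * x ^ (n + 2)) / (1 - x) ^ 2 := by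
    induction n with
    | zero =>
      rw [Finset.sum_range_zero]
      field_simp
      push_cast
      ring
    | succ n ih =>
      rw [Finset.sum_range_succ, ih]
      field_simp
      push_cast
      ring
  rw [h3]
  have h4 : x ^ (n + 2) ≤ x ^ (n + 1) := pow_le_pow_of_le_one h0 h1.le (by omega)
  have h5 : 0 ≤ x ^ (n + 1) := by positivity
  have h6 : (0 : ℝ) ≤ (n : ℝ) + 1 := by positivity
  have h7 : ((n : ℝ) + 1) * x ^ (n + 2) ≤ ((n : ℝ) + 1) * x ^ (n + 1) :=
    mul_le_mul_of_nonneg_left h4 h6
  have h8 : 0 ≤ (((n : ℝ) + 2) * x ^ (n + 1) - ((n : ℝ) + 1) * x ^ (n + 2)) / (1 - x) ^ 2 := by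
    apply div_nonneg _ (by positivity)
    linarith
  linarith

section

variable {e p : ℕ → ℝ} {lam : ℝ}

theorem e_pos (he0 : e 0 = 1) (hlam : 65 ≤ lam)
    (hlo : ∀ k : ℕ, (lam - 7 * k) * e k ≤ (k + 1) * e (k + 1)) :
    ∀ j : ℕ, 65 * (j : ℝ) ≤ lam → 0 < e j ∧ 0 < e (j + 1) := by
  intro j
  induction j with
  | zero =>
    intro _
    rw [he0]
    have := hlo 0
    rw [he0] at this
    push_cast at this
    exact ⟨one_pos, by linarith⟩
  | succ j ih =>
    intro h
    have h1 := (ih (by push_cast at h; linarith)).2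
    refine ⟨h1, ?_⟩
    have h2 := hlo (j + 1)
    have h3 : 0 < (lam - 7 * ((j + 1 : ℕ) : ℝ)) * e (j + 1) := by
      apply mul_pos _ h1
      push_cast at h ⊢
      linarith
    have h4 : 0 < (((j + 1 : ℕ) : ℝ) + 1) * e (j + 1 + 1) := lt_of_lt_of_le h3 h2
    exact (pos_iff_pos_of_mul_pos h4).1 (by positivity)

/-- the increments of the quotients -/
theorem incr (he0 : e 0 = 1) (he1 : e 1 = lam) (hlam : 65 ≤ lam)
    (hlo : ∀ k : ℕ, (lam - 7 * k) * e k ≤ (k + 1) * e (k + 1))
    (hup : ∀ k : ℕ, (k + 1) * e (k + 1) ≤ (lam - k) * e k)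
    (hp : ∀ m, |p (m + 1)| ≤ lam * 8 ^ (m + 1))
    (hN : ∀ k : ℕ, ((k : ℝ) + 1) * e (k + 1) =
      ∑ i ∈ Finset.range (k + 1), (-1) ^ i * p (i + 1) * e (k - i)) :
    ∀ j : ℕ, 65 * (j : ℝ) ≤ lam → ∀ s ≤ j, 0 ≤ yq e (s + 1) - yq e s ∧
      yq e (s + 1) - yq e s ≤ 13 / 5 / lam := by
  have hpos := e_pos he0 hlam hlo
  have lam0 : 0 < lam := by linarith
  have p1 : p 1 = lam := by
    have := hN 0
    simp only [Nat.cast_zero, zero_add, one_mul, Finset.range_one, Finset.sum_singleton, pow_zero,
      Nat.sub_zero, he0, mul_one] at this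
    rw [← this, he1]
  have p2 : p 2 = lam ^ 2 - 2 * e 2 := by
    have := hN 1
    rw [Finset.sum_range_succ, Finset.sum_range_one] at this
    simp only [Nat.cast_one, pow_zero, pow_one, Nat.sub_zero, Nat.sub_self, he0, he1, zero_add,
      one_mul, mul_one, p1] at this
    norm_num at this
    linarith
  have p2lo : lam ≤ p 2 := by
    have := hup 1
    rw [he1] at this
    norm_num at this
    rw [p2]
    nlinarith
  have p2up : p 2 ≤ 7 * lam := by
    have := hlo 1
    rw [he1] at this
    norm_num at this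
    rw [p2]
    nlinarith
  intro j
  induction j with
  | zero =>
    intro _ s hs
    obtain rfl : s = 0 := by omega
    change 0 ≤ e 0 / e 1 - 0 ∧ e 0 / e 1 - 0 ≤ 13 / 5 / lam
    rw [he0, he1, sub_zero]
    refine ⟨by positivity, ?_⟩
    exact div_le_div_of_nonneg_right (by norm_num) lam0.le
  | succ j ih =>
    intro hj s hs
    have hj' : 65 * ((j : ℝ) + 1) ≤ lam := by push_cast at hj; linarith
    have IH := ih (by linarith)
    rcases Nat.lt_or_ge s (j + 1) with hs' | hs'
    · exact IH s (by omega)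
    obtain rfl : s = j + 1 := by omega
    -- positivity
    have ep : ∀ a, a ≤ j + 2 → 0 < e a := by
      intro a ha
      rcases Nat.lt_or_ge a (j + 2) with h | h
      · refine (hpos a ?_).1
        have : (a : ℝ) ≤ (j : ℝ) + 1 := by exact_mod_cast (show a ≤ j + 1 by omega)
        linarith
      · obtain rfl : a = j + 2 := by omega
        exact (hpos (j + 1) (by push_cast; linarith)).2
    -- the quotients are small
    have ysm : ∀ a, a ≤ j + 1 → 0 ≤ yq e a ∧ yq e a ≤ 1 / 58 := by
      intro a ha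
      cases a with
      | zero => exact ⟨le_rfl, by change (0 : ℝ) ≤ 1 / 58; norm_num⟩
      | succ a =>
        have h1 := ep a (by omega)
        have h2 := ep (a + 1) (by omega)
        refine ⟨div_nonneg h1.le h2.le, ?_⟩
        change e a / e (a + 1) ≤ 1 / 58
        rw [div_le_div_iff₀ h2 (by norm_num)]
        have h3 := hlo a
        have h4 : (a : ℝ) + 1 ≤ (j : ℝ) + 1 := by exact_mod_cast (show a + 1 ≤ j + 1 by omega)
        have h5 : 58 * ((a : ℝ) + 1) ≤ lam - 7 * a := by linarith
        have h6 : 58 * ((a : ℝ) + 1) * e a ≤ ((a : ℝ) + 1) * e (a + 1) :=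
          (mul_le_mul_of_nonneg_right h5 h1.le).trans h3
        have h7 : (0 : ℝ) < (a : ℝ) + 1 := by positivity
        have h8 : ((a : ℝ) + 1) * (58 * e a) ≤ ((a : ℝ) + 1) * e (a + 1) := by linarith
        have := le_of_mul_le_mul_left h8 h7
        linarith
    -- sums of increments
    have ydiff : ∀ n a, a + n ≤ j + 1 → 0 ≤ yq e (a + n) - yq e a ∧
        yq e (a + n) - yq e a ≤ n * (13 / 5 / lam) := by
      intro n
      induction n with
      | zero =>
        intro a _
        simp
      | succ n ihn =>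
        intro a ha
        obtain ⟨h1, h2⟩ := ihn a (by omega)
        obtain ⟨h3, h4⟩ := IH (a + n) (by omega)
        rw [show a + (n + 1) = a + n + 1 by ring]
        push_cast
        exact ⟨by linarith, by linarith⟩
    -- products of quotients
    have prd : ∀ n a, a + n ≤ j + 1 → e a / e (a + n) ≤ (1 / 58) ^ n := by
      intro n
      induction n with
      | zero =>
        intro a ha
        rw [add_zero, div_self (ep a (by omega)).ne', pow_zero]
      | succ n ihn =>
        intro a ha
        have h1 := ep a (by omega)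
        have h2 := ep (a + n) (by omega)
        have h3 := ep (a + n + 1) (by omega)
        have h4 : e a / e (a + (n + 1)) = e a / e (a + n) * yq e (a + n + 1) := by
          change e a / e (a + n + 1) = e a / e (a + n) * (e (a + n) / e (a + n + 1))
          field_simp
        rw [h4, pow_succ]
        exact mul_le_mul (ihn a (by omega)) (ysm _ (by omega)).2 (ysm _ (by omega)).1
          (by positivity)
    have ej := ep j (by omega)
    have ej1 := ep (j + 1) (by omega)
    have ej2 := ep (j + 2) le_rfl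
    set Y := yq e (j + 1) with hY
    have hYe : Y = e j / e (j + 1) := rfl
    have hY2 : yq e (j + 1 + 1) = e (j + 1) / e (j + 2) := rfl
    -- the difference of the two identities
    set u1 : ℝ := ((j : ℝ) + 2) * e (j + 2) / e (j + 1) with hu1
    set u0 : ℝ := ((j : ℝ) + 1) * e (j + 1) / e j with hu0
    set T : ℝ := ∑ i ∈ Finset.range j, (-1) ^ (i + 2) * p (i + 2 + 1) *
      (e (j + 1 - (i + 2)) / e j * (Y - yq e (j + 1 - (i + 2)))) with hT
    have hdiff : u1 - u0 = -p 2 * (Y - yq e j) + T := by
      have a1 : u1 = ∑ i ∈ Finset.range (j + 2), (-1) ^ i * p (i + 1) * (e (j + 1 - i) / e (j + 1)) := by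
        have := hN (j + 1)
        rw [hu1]
        push_cast at this
        rw [show (j : ℝ) + 2 = (j : ℝ) + 1 + 1 by ring, this, Finset.sum_div]
        refine Finset.sum_congr rfl fun i _ => ?_
        rw [mul_div_assoc]
      have a2 : u0 = ∑ i ∈ Finset.range (j + 1), (-1) ^ i * p (i + 1) * (e (j - i) / e j) := by
        have := hN j
        rw [hu0, this, Finset.sum_div]
        refine Finset.sum_congr rfl fun i _ => ?_
        rw [mul_div_assoc]
      have a3 : u1 = ∑ i ∈ Finset.range j, (-1) ^ (i + 2) * p (i + 2 + 1) *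
          (e (j + 1 - (i + 2)) / e (j + 1)) - p 2 * Y + lam := by
        rw [a1, Finset.sum_range_succ', Finset.sum_range_succ']
        rw [show (0 : ℕ) + 1 = 1 from rfl, pow_one, pow_zero, show j + 1 - 1 = j by omega,
          Nat.sub_zero, div_self ej1.ne', p1, hYe]
        ring
      have a4 : u0 = ∑ i ∈ Finset.range j, (-1) ^ (i + 2) * p (i + 2 + 1) *
          (e (j + 1 - (i + 2)) / e j * yq e (j + 1 - (i + 2))) - p 2 * yq e j + lam := by
        rw [a2, Finset.sum_range_succ', pow_zero, Nat.sub_zero, div_self ej.ne', p1]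
        rcases Nat.eq_zero_or_pos j with hj0 | hj0
        · subst hj0
          simp [yq]
        · obtain ⟨m, rfl⟩ : ∃ m, j = m + 1 := ⟨j - 1, by omega⟩
          rw [Finset.sum_range_succ' (n := m), Finset.sum_range_succ (n := m)]
          have b1 : yq e (m + 1 + 1 - (m + 2)) = 0 := by
            rw [show m + 1 + 1 - (m + 2) = 0 by omega]
            rfl
          rw [b1, mul_zero, mul_zero, add_zero]
          have b2 : ∀ i ∈ Finset.range m, (-1 : ℝ) ^ (i + 1 + 1) * p (i + 1 + 1 + 1) *
              (e (m + 1 - (i + 1 + 1)) / e (m + 1)) = (-1) ^ (i + 2) * p (i + 2 + 1) *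
              (e (m + 1 + 1 - (i + 2)) / e (m + 1) * yq e (m + 1 + 1 - (i + 2))) := by
            intro i hi
            rw [Finset.mem_range] at hi
            obtain ⟨a, rfl⟩ : ∃ a, m = i + 1 + a := ⟨m - (i + 1), by omega⟩
            rw [show i + 1 + a + 1 - (i + 1 + 1) = a by omega,
              show i + 1 + a + 1 + 1 - (i + 2) = a + 1 by omega]
            have c1 := ep (a + 1) (by omega)
            change (-1 : ℝ) ^ (i + 1 + 1) * p (i + 1 + 1 + 1) * (e a / e (i + 1 + a + 1)) =
              (-1) ^ (i + 2) * p (i + 2 + 1) *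
                (e (a + 1) / e (i + 1 + a + 1) * (e a / e (a + 1)))
            rw [show e (a + 1) / e (i + 1 + a + 1) * (e a / e (a + 1)) = e a / e (i + 1 + a + 1) by
              field_simp]
          rw [Finset.sum_congr rfl b2]
          rw [show m + 1 - (0 + 1) = m by omega]
          change _ + (-1 : ℝ) ^ (0 + 1) * p (0 + 1 + 1) * (e m / e (m + 1)) + 1 * lam * 1 = _ -
            p 2 * (e m / e (m + 1)) + lam
          rw [show 0 + 1 + 1 = 2 from rfl, show 0 + 1 = 1 from rfl, pow_one]
          ring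
      have a5 : T = ∑ i ∈ Finset.range j, (-1) ^ (i + 2) * p (i + 2 + 1) *
          (e (j + 1 - (i + 2)) / e (j + 1)) - ∑ i ∈ Finset.range j, (-1) ^ (i + 2) *
          p (i + 2 + 1) * (e (j + 1 - (i + 2)) / e j * yq e (j + 1 - (i + 2))) := by
        rw [hT, ← Finset.sum_sub_distrib]
        refine Finset.sum_congr rfl fun i _ => ?_
        have : e (j + 1 - (i + 2)) / e j * Y = e (j + 1 - (i + 2)) / e (j + 1) := by
          rw [hYe]
          field_simp
        rw [← this]
        ring
      rw [a3, a4, a5]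
      ring
    -- the bound for T
    have hTb : |T| ≤ 13 / 5 * 64 * (216 / 625) := by
      have b1 : |T| ≤ ∑ i ∈ Finset.range j, 13 / 5 * 64 * (((i : ℝ) + 2) * (4 / 29) ^ (i + 1)) := by
        rw [hT]
        refine (Finset.abs_sum_le_sum_abs _ _).trans (Finset.sum_le_sum fun i hi => ?_)
        rw [Finset.mem_range] at hi
        obtain ⟨a, rfl⟩ : ∃ a, j = a + (i + 1) := ⟨j - (i + 1), by omega⟩
        rw [show a + (i + 1) + 1 - (i + 2) = a by omega, abs_mul, abs_mul, abs_pow, abs_neg,
          abs_one, one_pow, one_mul]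
        obtain ⟨c1, c2⟩ := ydiff (i + 2) a (by omega)
        have c3 := prd (i + 1) a (by omega)
        have c4 : 0 ≤ e a / e (a + (i + 1)) := div_nonneg (ep a (by omega)).le ej.le
        have c5 : a + (i + 2) = a + (i + 1) + 1 := by ring
        rw [c5] at c1 c2
        rw [abs_of_nonneg (mul_nonneg c4 (by rw [hY]; exact c1))]
        have c6 := hp (i + 2)
        have c7 : e a / e (a + (i + 1)) * (Y - yq e a) ≤
            (1 / 58) ^ (i + 1) * (((i + 2 : ℕ) : ℝ) * (13 / 5 / lam)) :=
          mul_le_mul c3 (by rw [hY]; exact c2) (by rw [hY]; exact c1) (by positivity)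
        calc |p (i + 2 + 1)| * (e a / e (a + (i + 1)) * (Y - yq e a))
            ≤ lam * 8 ^ (i + 2 + 1) * ((1 / 58) ^ (i + 1) * (((i + 2 : ℕ) : ℝ) * (13 / 5 / lam))) :=
              mul_le_mul c6 c7 (mul_nonneg c4 (by rw [hY]; exact c1)) (by positivity)
          _ = 13 / 5 * 64 * (((i : ℝ) + 2) * (4 / 29) ^ (i + 1)) := by
              have d1 : (8 : ℝ) ^ (i + 2 + 1) = 64 * 8 ^ (i + 1) := by ring
              have d2 : (4 / 29 : ℝ) ^ (i + 1) = 8 ^ (i + 1) * (1 / 58) ^ (i + 1) := by
                rw [← mul_pow]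
                norm_num
              rw [d1, d2]
              push_cast
              field_simp
      rw [← Finset.mul_sum] at b1
      have b2 := geo_le (x := 4 / 29) (by norm_num) (by norm_num) j
      have b3 : (1 : ℝ) / (1 - 4 / 29) ^ 2 - 1 = 216 / 625 := by norm_num
      rw [b3] at b2
      linarith [mul_le_mul_of_nonneg_left b2 (show (0 : ℝ) ≤ 13 / 5 * 64 by norm_num)]
    -- the main identity
    obtain ⟨y0, y1⟩ := ysm (j + 1) le_rfl
    obtain ⟨i0, i1⟩ := IH j le_rfl
    have hu1pos : 58 / 65 * lam ≤ u1 := by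
      rw [hu1, le_div_iff₀ ej1]
      have := hlo (j + 1)
      push_cast at this
      have h2 : 58 / 65 * lam ≤ lam - 7 * ((j : ℝ) + 1) := by linarith
      have h3 := mul_le_mul_of_nonneg_right h2 ej1.le
      linarith
    have main : (yq e (j + 1 + 1) - Y) * u1 = 1 + Y * p 2 * (Y - yq e j) - Y * T := by
      have m1 : yq e (j + 1 + 1) * u1 = (j : ℝ) + 2 := by
        rw [hY2, hu1]
        field_simp
      have m2 : Y * u0 = (j : ℝ) + 1 := by
        rw [hYe, hu0]
        field_simp
      have m3 : Y * u1 = Y * u0 + Y * (-p 2 * (Y - yq e j) + T) := by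
        rw [← hdiff]
        ring
      rw [sub_mul, m1, m3, m2]
      ring
    have hTb' := abs_le.1 hTb
    have n1 : Y * T ≤ 1 / 58 * (13 / 5 * 64 * (216 / 625)) := by
      calc Y * T ≤ Y * |T| := mul_le_mul_of_nonneg_left (le_abs_self _) y0
        _ ≤ 1 / 58 * (13 / 5 * 64 * (216 / 625)) := mul_le_mul y1 hTb (abs_nonneg _) (by norm_num)
    have n2 : -(1 / 58 * (13 / 5 * 64 * (216 / 625))) ≤ Y * T := by
      have : Y * (-T) ≤ 1 / 58 * (13 / 5 * 64 * (216 / 625)) := by
        calc Y * (-T) ≤ Y * |T| := mul_le_mul_of_nonneg_left (neg_le_abs _) y0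
          _ ≤ 1 / 58 * (13 / 5 * 64 * (216 / 625)) :=
              mul_le_mul y1 hTb (abs_nonneg _) (by norm_num)
      linarith
    have n3 : 0 ≤ Y * p 2 * (Y - yq e j) := mul_nonneg (mul_nonneg y0 (by linarith)) i0
    have n4 : Y * p 2 * (Y - yq e j) ≤ 1 / 58 * (7 * lam) * (13 / 5 / lam) := by
      refine mul_le_mul (mul_le_mul y1 p2up (by linarith) (by norm_num)) i1 i0 (by positivity)
    have n5 : 1 / 58 * (7 * lam) * (13 / 5 / lam) = 7 * 13 / 290 := by
      field_simp
      norm_num
    rw [n5] at n4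
    have u1p : 0 < u1 := lt_of_lt_of_le (by positivity) hu1pos
    have r1 : 0 < (yq e (j + 1 + 1) - Y) * u1 := by
      rw [main]
      norm_num at n1 ⊢
      linarith
    have r2 : 0 < yq e (j + 1 + 1) - Y := (pos_iff_pos_of_mul_pos r1).2 u1p
    refine ⟨r2.le, ?_⟩
    rw [le_div_iff₀ lam0]
    have r3 : (yq e (j + 1 + 1) - Y) * (58 / 65 * lam) ≤ (yq e (j + 1 + 1) - Y) * u1 :=
      mul_le_mul_of_nonneg_left hu1pos r2.le
    rw [main] at r3
    norm_num at n2
    linarith

end

/-- **Log-concavity of a positive proportion of the coefficients.** -/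
theorem lc_of_newton (e p : ℕ → ℝ) (lam : ℝ) (_hpos : ∀ k, 0 ≤ e k) (he0 : e 0 = 1)
    (he1 : e 1 = lam)
    (hlo : ∀ k : ℕ, (lam - 7 * k) * e k ≤ (k + 1) * e (k + 1))
    (hup : ∀ k : ℕ, (k + 1) * e (k + 1) ≤ (lam - k) * e k)
    (hp : ∀ m, |p (m + 1)| ≤ lam * 8 ^ (m + 1))
    (hN : ∀ k : ℕ, ((k : ℝ) + 1) * e (k + 1) =
      ∑ i ∈ Finset.range (k + 1), (-1) ^ i * p (i + 1) * e (k - i))
    (k : ℕ) (hk : 65 * ((k : ℝ) + 1) ≤ lam) : e (k + 2) * e k ≤ e (k + 1) ^ 2 := by
  have hlam : 65 ≤ lam := by
    have : (0 : ℝ) ≤ k := by positivity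
    linarith
  have h1 := (incr he0 he1 hlam hlo hup hp hN (k + 1) (by push_cast; exact hk) (k + 1) le_rfl).1
  have h2 := e_pos he0 hlam hlo (k + 1) (by push_cast; exact hk)
  have h3 : yq e (k + 1) ≤ yq e (k + 1 + 1) := by linarith
  change e k / e (k + 1) ≤ e (k + 1) / e (k + 2) at h3
  rw [div_le_div_iff₀ h2.1 h2.2] at h3
  nlinarith

end Pool.Agent.Helper49.ZB
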